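import Pool.Agent.H93.SM.Iface
import Pool.Agent.H91.M7.ExtDisc

set_option autoImplicit false
open Metric Set Filter Topology Pool.Agent.H7.UC Pool.Agent.H74.Tri

/-! Module FS of SM (MP_2e6055): connected sets of bounded size which touch the boundary are small in
the chart. -/

namespace Pool.Agent.H93.SM

/-- the chart is injective: inverse on the closure -/
theorem DiscChart_open {D : Set ℂ} {φ : ℂ → ℂ} (h : DiscChart D φ) (hD : IsOpen D) {w : ℂ}
    (hw : ‖w‖ = 1) : φ w ∈ frontier D := by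
  have hwc : w ∈ closedBall (0:ℂ) 1 := by rw [mem_closedBall_zero_iff]; exact hw.le
  refine ⟨?_, ?_⟩
  · rw [← h.imgc]; exact ⟨w, hwc, rfl⟩
  · rw [hD.interior_eq, ← h.img]
    rintro ⟨w', hw', he⟩
    have : w' = w := h.inj (ball_subset_closedBall hw') hwc he
    rw [this, mem_ball_zero_iff, hw] at hw'
    exact lt_irrefl _ hw'

theorem DiscChart_frontier {D : Set ℂ} {φ : ℂ → ℂ} (h : DiscChart D φ) (hD : IsOpen D) {x : ℂ}
    (hx : x ∈ frontier D) : ∃ w : ℂ, ‖w‖ = 1 ∧ φ w = x := by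
  have h1 : x ∈ φ '' closedBall 0 1 := by rw [h.imgc]; exact hx.1
  obtain ⟨w, hw, rfl⟩ := h1
  refine ⟨w, ?_, rfl⟩
  rw [mem_closedBall_zero_iff] at hw
  rcases hw.lt_or_eq with h2 | h2
  · exfalso
    have h3 : φ w ∈ D := by rw [← h.img]; exact ⟨w, mem_ball_zero_iff.2 h2, rfl⟩
    have := hx.2
    rw [hD.interior_eq] at this
    exact this h3
  · exact h2

theorem isOpen_reg (U : Finset Fc) : IsOpen (reg U) := isOpen_interior

theorem fs : FS := by
  intro δ hδ
  -- choice of K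
  set L : ℝ := (32 * Real.pi / δ) ^ 2 with hL
  refine ⟨9 * Real.exp (L + 1) + 9, ?_⟩
  intro U φ z R hU hφ h0 hball hR Q hQ hQc hQ8 hQn w hw w' hw' hwQ hwQ'
  set D : Set ℂ := reg U with hD
  have hDo : IsOpen D := isOpen_reg U
  obtain ⟨b, hbQ, hbD⟩ := hQn
  -- the inverse
  set g : ℂ → ℂ := Function.invFunOn φ (closedBall 0 1) with hg
  have hgφ : ∀ v ∈ closedBall (0:ℂ) 1, g (φ v) = v := fun v hv => hφ.inj.leftInvOn_invFunOn hv
  have hgm : ∀ x ∈ closure D, g x ∈ closedBall (0:ℂ) 1 := by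
    intro x hx
    rw [← hφ.imgc] at hx
    exact Function.invFunOn_mem hx
  have hφg : ∀ x ∈ closure D, φ (g x) = x := by
    intro x hx
    rw [← hφ.imgc] at hx
    exact Function.invFunOn_eq hx
  have hgc : ContinuousOn g (closure D) := by
    rw [← hφ.imgc]
    rw [continuousOn_iff_isClosed]
    intro t ht
    refine ⟨φ '' (closedBall 0 1 ∩ t), ?_, ?_⟩
    · apply IsCompact.isClosed
      apply IsCompact.image_of_continuousOn
      · exact (isCompact_closedBall 0 1).inter_right ht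
      · exact hφ.cont.mono inter_subset_left
    · ext x
      constructor
      · rintro ⟨hx, v, hv, rfl⟩
        rw [mem_preimage, hgφ v hv] at hx
        exact ⟨⟨v, ⟨hv, hx⟩, rfl⟩, ⟨v, hv, rfl⟩⟩
      · rintro ⟨⟨v, ⟨hv, hvt⟩, rfl⟩, -⟩
        refine ⟨?_, ⟨v, hv, rfl⟩⟩
        rw [mem_preimage, hgφ v hv]
        exact hvt
  have hgd : DifferentiableOn ℂ g D := by
    rw [← hφ.img]
    exact Pool.Agent.H83.Lo.differentiableOn_inv isOpen_ball hφ.diff
      (hφ.inj.mono ball_subset_closedBall) (fun v hv => hgφ v (ball_subset_closedBall hv))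
  have hgi : InjOn g D := by
    intro x hx y hy hxy
    rw [← hφg x (subset_closure hx), hxy, hφg y (subset_closure hy)]
  have hgim : g '' D = ball 0 1 := by
    rw [← hφ.img]
    ext v
    constructor
    · rintro ⟨_, ⟨u, hu, rfl⟩, rfl⟩
      rw [hgφ u (ball_subset_closedBall hu)]; exact hu
    · intro hv
      exact ⟨φ v, ⟨v, hv, rfl⟩, hgφ v (ball_subset_closedBall hv)⟩
  have hzD : z ∈ D := by
    rw [← hφ.img, ← h0]
    exact ⟨0, mem_ball_self one_pos, rfl⟩
  have hgz : g z = 0 := by rw [← h0]; exact hgφ 0 (mem_closedBall_self zero_le_one)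
  have hexp : 0 < Real.exp (L + 1) := Real.exp_pos _
  have hRR : 9 * Real.exp (L + 1) ≤ R := by linarith
  have hR9 : (9:ℝ) < R := by linarith [Real.add_one_le_exp (L + 1), sq_nonneg (32 * Real.pi / δ)]
  have hdb : R ≤ dist z b := by
    by_contra hcon
    rw [not_le] at hcon
    exact hbD (hball (by rw [mem_ball, dist_comm]; exact hcon))
  -- uniform continuity: radial contraction
  have huc : ∀ᶠ t : ℝ in 𝓝[<] (1:ℝ), ∀ v ∈ closedBall (0:ℂ) 1, dist (φ ((t:ℂ) * v)) (φ v) < 1 := by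
    have hu := (isCompact_closedBall (0:ℂ) 1).uniformContinuousOn_of_continuous hφ.cont
    rw [Metric.uniformContinuousOn_iff] at hu
    obtain ⟨ε, hε, hu⟩ := hu 1 one_pos
    have h1 : Ioo (max 0 (1 - ε)) 1 ∈ 𝓝[<] (1:ℝ) := by
      apply Ioo_mem_nhdsLT
      exact max_lt one_pos (by linarith)
    filter_upwards [h1] with t ht v hv
    have ht0 : 0 < t := (le_max_left _ _).trans_lt ht.1
    have htε : 1 - ε < t := (le_max_right _ _).trans_lt ht.1
    rw [mem_closedBall_zero_iff] at hv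
    apply hu
    · rw [mem_closedBall_zero_iff, norm_mul, Complex.norm_real, Real.norm_of_nonneg ht0.le]
      nlinarith [ht.2, norm_nonneg v]
    · rw [mem_closedBall_zero_iff]; exact hv
    · rw [dist_eq_norm]
      have : (t:ℂ) * v - v = ((t - 1 : ℝ):ℂ) * v := by push_cast; ring
      rw [this, norm_mul, Complex.norm_real, Real.norm_eq_abs, abs_of_neg (by linarith [ht.2])]
      nlinarith [ht.2, norm_nonneg v]
  have key : ∀ᶠ t : ℝ in 𝓝[<] (1:ℝ), dist ((t:ℂ) * w) ((t:ℂ) * w') ≤ δ := by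
    have hpos : Ioo (0:ℝ) 1 ∈ 𝓝[<] (1:ℝ) := Ioo_mem_nhdsLT one_pos
    filter_upwards [huc, hpos] with t ht htp
    have hball1 : ∀ v ∈ closedBall (0:ℂ) 1, (t:ℂ) * v ∈ ball (0:ℂ) 1 := by
      intro v hv
      rw [mem_closedBall_zero_iff] at hv
      rw [mem_ball_zero_iff, norm_mul, Complex.norm_real, Real.norm_of_nonneg htp.1.le]
      nlinarith [htp.2, norm_nonneg v, htp.1]
    set P : Set ℂ := (fun x => φ ((t:ℂ) * g x)) '' Q with hP
    have hPc : IsPreconnected P := by
      apply hQ.image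
      apply hφ.cont.comp
      · exact continuousOn_const.mul (hgc.mono hQc)
      · intro x hx
        exact ball_subset_closedBall (hball1 _ (hgm x (hQc hx)))
    have hPD : P ⊆ D := by
      rintro _ ⟨x, hx, rfl⟩
      rw [← hφ.img]
      exact ⟨_, hball1 _ (hgm x (hQc hx)), rfl⟩
    have hPb : P ⊆ closedBall b 9 := by
      rintro _ ⟨x, hx, rfl⟩
      rw [mem_closedBall]
      have h1 := ht (g x) (hgm x (hQc hx))
      rw [hφg x (hQc hx)] at h1
      have h2 : dist x b ≤ 8 := by rw [dist_eq_norm]; exact hQ8 x hx b hbQ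
      have h3 := dist_triangle (φ ((t:ℂ) * g x)) x b
      change dist (φ ((t:ℂ) * g x)) b ≤ 9
      linarith
    have hm1 : φ ((t:ℂ) * w) ∈ P := ⟨φ w, hwQ, by
      show φ ((t:ℂ) * g (φ w)) = _
      rw [hgφ w hw]⟩
    have hm2 : φ ((t:ℂ) * w') ∈ P := ⟨φ w', hwQ', by
      show φ ((t:ℂ) * g (φ w')) = _
      rw [hgφ w' hw']⟩
    have h5 := Pool.Agent.H91.M7.ext_disc hDo hgd hgi hgim hzD hgz (by norm_num : (0:ℝ) < 9) hR9
      hdb hPc hPD hPb hm1 hm2
    rw [hgφ _ (ball_subset_closedBall (hball1 w hw)),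
      hgφ _ (ball_subset_closedBall (hball1 w' hw'))] at h5
    refine h5.trans ?_
    have hlog : L ≤ Real.log (R / 9) := by
      have h6 : Real.exp (L + 1) ≤ R / 9 := by rw [le_div_iff₀ (by norm_num)]; linarith
      have h7 := Real.log_le_log hexp h6
      rw [Real.log_exp] at h7
      linarith
    have hpd : 0 < 32 * Real.pi / δ := by positivity
    have hsq : 32 * Real.pi / δ ≤ √(Real.log (R / 9)) := by
      apply Real.le_sqrt_of_sq_le
      rw [← hL]; exact hlog
    rw [div_le_iff₀ (hpd.trans_le hsq)]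
    rw [div_le_iff₀ hδ] at hsq
    linarith
  -- limit
  have hlim : Tendsto (fun t : ℝ => dist ((t:ℂ) * w) ((t:ℂ) * w')) (𝓝[<] 1) (𝓝 (dist w w')) := by
    have hc : Continuous (fun t : ℝ => dist ((t:ℂ) * w) ((t:ℂ) * w')) := by fun_prop
    have := hc.tendsto 1
    simp only [Complex.ofReal_one, one_mul] at this
    exact this.mono_left nhdsWithin_le_nhds
  rw [← dist_eq_norm]
  exact le_of_tendsto hlim key

end Pool.Agent.H93.SM
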