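import Pool.Agent.H44.SM.FS
import Pool.Agent.H7.UC.Bulk2

set_option autoImplicit false
open Metric Set Filter Topology Pool.Agent.H7.UC Pool.Agent.H74.Tri

/-! Module VX of SM (MP_2e6055): vertices with exactly one face are dense in the chart. -/

namespace Pool.Agent.H93.SM

/-- the edge of `h` towards its neighbour `m + 1` -/
theorem edge_sub {U : Finset Fc} (hA : frontier (reg U) =
    ⋃ v : Vx, ⋃ k : Fin 3, ⋃ _ : isB U (ed v k), segment ℝ (pv v) (pv (nb v k)))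
    {h : Fc} (hh : h ∉ U) {m : Fin 6} (hm : nbr h (m + 1) ∈ U) :
    segment ℝ (pv (vtx h m)) (pv (vtx h (m + 1))) ⊆ frontier (reg U) := by
  intro x hx
  rw [hA]
  simp only [mem_iUnion]
  refine ⟨vtx h m, kx m + 1, ?_, ?_⟩
  · rw [(vtx_ed h m).1]
    rcases eg_faces h (m + 1) with ⟨h1, h2⟩ | ⟨h1, h2⟩
    · exact Or.inr ⟨by rw [h1]; exact hh, by rw [h2]; exact hm⟩
    · exact Or.inl ⟨by rw [h1]; exact hm, by rw [h2]; exact hh⟩
  · rw [vtx_nb]; exact hx

theorem pv_vtx_mem (h : Fc) (m : Fin 6) : pv (vtx h m) ∈ closedBall (ctr h) 1 := by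
  have h1 := ctr_pv (vtx h m) (kx m)
  rw [(vtx_fc h m).1] at h1
  rw [mem_closedBall, dist_comm, dist_eq_norm]
  exact h1

theorem run {U : Finset Fc} (hA : frontier (reg U) =
    ⋃ v : Vx, ⋃ k : Fin 3, ⋃ _ : isB U (ed v k), segment ℝ (pv v) (pv (nb v k)))
    {h : Fc} (hh : h ∉ U) (n : ℕ) : ∀ m : Fin 6, nbr h (m + 1) ∈ U →
    nbr h ((fun a : Fin 6 => a + 1)^[n + 1] (m + 1)) ∉ U → ∃ Q : Set ℂ, IsPreconnected Q ∧ Q ⊆ frontier (reg U) ∧
    Q ⊆ closedBall (ctr h) 1 ∧ segment ℝ (pv (vtx h m)) (pv (vtx h (m + 1))) ⊆ Q ∧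
    ∃ x k, One U x k ∧ pv x ∈ Q := by
  have f3 : ∀ k : Fin 3, k + 1 + 1 = k + 2 ∧ k + 1 + 2 = k := by decide
  have hseg : ∀ m : Fin 6, segment ℝ (pv (vtx h m)) (pv (vtx h (m + 1))) ⊆
      closedBall (ctr h) 1 := fun m =>
    (convex_closedBall (ctr h) (1:ℝ)).segment_subset (pv_vtx_mem h m) (pv_vtx_mem h (m + 1))
  have base : ∀ m : Fin 6, nbr h (m + 1) ∈ U → nbr h (m + 1 + 1) ∉ U →
      ∃ Q : Set ℂ, IsPreconnected Q ∧ Q ⊆ frontier (reg U) ∧
      Q ⊆ closedBall (ctr h) 1 ∧ segment ℝ (pv (vtx h m)) (pv (vtx h (m + 1))) ⊆ Q ∧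
      ∃ x k, One U x k ∧ pv x ∈ Q := by
    intro m hm hm2
    refine ⟨_, (convex_segment _ _).isPreconnected, edge_sub hA hh hm, hseg m, Subset.rfl,
      vtx h (m + 1), kx (m + 1) + 1, ?_, right_mem_segment _ _ _⟩
    obtain ⟨g1, g2, g3⟩ := vtx_fc h (m + 1)
    refine ⟨by rw [g2]; exact hm, ?_, ?_⟩
    · rw [(f3 _).1, g3]; exact hm2
    · rw [(f3 _).2, g1]; exact hh
  induction n with
  | zero =>
    intro m hm hm2
    exact base m hm (by simpa using hm2)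
  | succ n ih =>
    intro m hm hm2
    by_cases hc : nbr h (m + 1 + 1) ∈ U
    · obtain ⟨Q, q1, q2, q3, q4, q5⟩ := ih (m + 1) hc (by
        rw [Function.iterate_succ_apply] at hm2
        exact hm2)
      refine ⟨segment ℝ (pv (vtx h m)) (pv (vtx h (m + 1))) ∪ Q, ?_, ?_, ?_, ?_, ?_⟩
      · exact IsPreconnected.union (pv (vtx h (m + 1))) (right_mem_segment _ _ _)
          (q4 (left_mem_segment _ _ _)) (convex_segment _ _).isPreconnected q1
      · exact union_subset (edge_sub hA hh hm) q2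
      · exact union_subset (hseg m) q3
      · exact subset_union_left
      · obtain ⟨x, k, hx, hxQ⟩ := q5
        exact ⟨x, k, hx, Or.inr hxQ⟩
    · exact base m hm hc

/-- some neighbour of an outside face is outside -/
theorem exists_out {U : Finset Fc} (hU : IsDom U) {h : Fc} (hh : h ∉ U) : ∃ j, nbr h j ∉ U := by
  by_contra! hcon
  obtain ⟨g, hg⟩ := Infinite.exists_notMem_finset (insert h U)
  rw [Finset.mem_insert, not_or] at hg
  have h1 := hU.cconn h hh g hg.2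
  rcases h1.cases_head with h2 | ⟨b, ⟨hb, hab⟩, -⟩
  · exact hg.1 h2.symm
  · obtain ⟨j, rfl⟩ := adjF_nbr hab
    exact hb (hcon j)

theorem vx (a1 : A1) : VX := by
  intro δ hδ
  obtain ⟨K, hK⟩ := fs δ hδ
  refine ⟨K, ?_⟩
  intro U φ z R hU hφ h0 hball hR q hq
  have hA := (a1 U hU).2
  have hfr : φ q ∈ frontier (reg U) := DiscChart_open hφ (isOpen_reg U) hq
  have hfr' := hfr
  rw [hA] at hfr'
  simp only [mem_iUnion] at hfr'
  obtain ⟨v, k, hB, hseg⟩ := hfr'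
  -- orientation
  have f3 : ∀ k : Fin 3, k + 2 + 1 = k ∧ k + 2 + 2 = k + 1 := by decide
  have main : ∀ (v : Vx) (k : Fin 3), fc v (k + 1) ∈ U → fc v (k + 2) ∉ U →
      φ q ∈ segment ℝ (pv v) (pv (nb v k)) →
      ∃ (v : Vx) (k : Fin 3) (p : ℂ), One U v k ∧ ‖p‖ = 1 ∧ φ p = pv v ∧ ‖p - q‖ ≤ δ := by
    intro v k h1 h2 h3
    obtain ⟨m, hv, hk⟩ := eq_vtx v (k + 2)
    set h : Fc := fc v (k + 2) with hh
    have hk1 : k = kx m + 1 := by rw [← hk]; exact (f3 k).1.symm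
    have hnb : nb v k = vtx h (m + 1) := by
      rw [hv, hk1, ← vtx_nb]
    have hfc : fc v (k + 1) = nbr h (m + 1) := by
      rw [hv, hk1, ← (vtx_fc h m).2.2]
      congr 1
      have : ∀ a : Fin 3, a + 1 + 1 = a + 2 := by decide
      exact this _
    rw [hfc] at h1
    rw [hnb] at h3
    obtain ⟨j, hj⟩ := exists_out hU h2
    have hex : ∀ m j : Fin 6, ∃ n : Fin 6, (fun a : Fin 6 => a + 1)^[n.val + 1] (m + 1) = j := by
      decide
    obtain ⟨n, hn⟩ := hex m j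
    obtain ⟨Q, q1, q2, q3, q4, x, l, hx, hxQ⟩ := run hA h2 n.val m h1 (by rw [hn]; exact hj)
    obtain ⟨p, hp, hpx⟩ := DiscChart_frontier hφ (isOpen_reg U) (q2 hxQ)
    refine ⟨x, l, p, hx, hp, hpx, ?_⟩
    refine hK U φ z R hU hφ h0 hball hR Q q1 (q2.trans frontier_subset_closure) ?_ ?_ p ?_ q ?_ ?_ ?_
    · intro a ha b hb
      have e1 := q3 ha
      have e2 := q3 hb
      rw [mem_closedBall] at e1 e2
      have e3 := dist_triangle_right a b (ctr h)
      rw [← dist_eq_norm]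
      linarith
    · refine ⟨pv x, hxQ, ?_⟩
      have := (q2 hxQ).2
      rw [(isOpen_reg U).interior_eq] at this
      exact this
    · rw [mem_closedBall_zero_iff]; exact hp.le
    · rw [mem_closedBall_zero_iff]; exact hq.le
    · rw [hpx]; exact hxQ
    · rw [hv] at h3; exact q4 h3
  have hB' : (fc v (k + 1) ∈ U ∧ fc v (k + 2) ∉ U) ∨ (fc v (k + 1) ∉ U ∧ fc v (k + 2) ∈ U) := by
    unfold isB at hB
    rcases ed_faces v k with ⟨h1, h2⟩ | ⟨h1, h2⟩
    · rw [h1, h2] at hB; exact hB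
    · rw [h1, h2] at hB
      rcases hB with ⟨h3, h4⟩ | ⟨h3, h4⟩
      · exact Or.inr ⟨h4, h3⟩
      · exact Or.inl ⟨h4, h3⟩
  rcases hB' with ⟨h1, h2⟩ | ⟨h1, h2⟩
  · exact main v k h1 h2 hseg
  · refine main (nb v k) k ?_ ?_ ?_
    · rw [fc_nb1]; exact h2
    · rw [fc_nb2]; exact h1
    · rw [nb_nb, segment_symm]; exact hseg

end Pool.Agent.H93.SM
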